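import Pool.Agent.Helper94K9.OP.Stm

/-!
Library for [L1]-[L4]: means along an isometry.
-/

set_option autoImplicit false

namespace Pool.Agent.Helper46K9.OP

open Finset MeasureTheory Filter Topology
open Pool.Agent.Helper94K9.OP

variable {E : Type} [NormedAddCommGroup E] [InnerProductSpace ℝ E] {U P : E →L[ℝ] E} {v : ℤ → E}
  {c : ℤ → ℤ → ℤ → ℤ → ℝ}

theorem norm_pow (h : ∀ w, ‖U w‖ = ‖w‖) (k : ℕ) (w : E) : ‖(U ^ k) w‖ = ‖w‖ := by
  induction k with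
  | zero => simp
  | succ k ih =>
    rw [pow_succ', ContinuousLinearMap.mul_apply, h, ih]

theorem inner_U (h : ∀ w, ‖U w‖ = ‖w‖) (w w' : E) : inner ℝ (U w) (U w') = (inner ℝ w w' : ℝ) :=
  (⟨U.toLinearMap, h⟩ : E →ₗᵢ[ℝ] E).inner_map_map w w'

theorem inner_pow (h : ∀ w, ‖U w‖ = ‖w‖) (k : ℕ) (w w' : E) :
    inner ℝ ((U ^ k) w) ((U ^ k) w') = (inner ℝ w w' : ℝ) := by
  induction k with
  | zero => simp
  | succ k ih =>
    rw [pow_succ', ContinuousLinearMap.mul_apply, ContinuousLinearMap.mul_apply, inner_U h, ih]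

theorem pow_add_apply (a b : ℕ) (w : E) : (U ^ (a + b)) w = (U ^ a) ((U ^ b) w) := by
  rw [pow_add, ContinuousLinearMap.mul_apply]

theorem av_add (K : ℕ) (w w' : E) : Av U K (w + w') = Av U K w + Av U K w' := by
  simp only [Av, map_add, sum_add_distrib, smul_add]

theorem av_sub (K : ℕ) (w w' : E) : Av U K (w - w') = Av U K w - Av U K w' := by
  simp only [Av, map_sub, sum_sub_distrib, smul_sub]

theorem av_smul (K : ℕ) (r : ℝ) (w : E) : Av U K (r • w) = r • Av U K w := by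
  simp only [Av, map_smul, smul_sum]
  exact sum_congr rfl fun _ _ => by rw [smul_comm]

theorem av_sum {ι : Type*} (s : Finset ι) (K : ℕ) (w : ι → E) :
    Av U K (∑ i ∈ s, w i) = ∑ i ∈ s, Av U K (w i) := by
  simp only [Av, map_sum]
  rw [sum_comm, smul_sum]

theorem norm_av (h : ∀ w, ‖U w‖ = ‖w‖) (K : ℕ) (w : E) : ‖Av U K w‖ ≤ ‖w‖ := by
  rcases Nat.eq_zero_or_pos K with hK | hK
  · subst hK
    simp [Av]
  · have hK0 : (0 : ℝ) < K := by exact_mod_cast hK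
    rw [Av, norm_smul, Real.norm_eq_abs, abs_of_pos (by positivity : (0 : ℝ) < 1 / K)]
    have h1 : ‖∑ k ∈ range K, (U ^ k) w‖ ≤ ∑ _k ∈ range K, ‖w‖ :=
      (norm_sum_le _ _).trans (sum_le_sum fun k _ => (norm_pow h k w).le)
    rw [sum_const, card_range, nsmul_eq_mul] at h1
    calc 1 / (K : ℝ) * ‖∑ k ∈ range K, (U ^ k) w‖ ≤ 1 / K * (K * ‖w‖) :=
          mul_le_mul_of_nonneg_left h1 (by positivity)
      _ = ‖w‖ := by field_simp

/-- one step -/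
theorem av_step (h : ∀ w, ‖U w‖ = ‖w‖) (M : ℕ) (hM : 1 ≤ M) (w : E) :
    ‖Av U M w - Av U M (U w)‖ ≤ 2 / M * ‖w‖ := by
  have hM0 : (0 : ℝ) < M := by exact_mod_cast hM
  have e : Av U M w - Av U M (U w) = (1 / (M : ℝ)) • (w - (U ^ M) w) := by
    rw [Av, Av, ← smul_sub]
    congr 1
    rw [← sum_sub_distrib]
    have e1 : ∀ k, (U ^ k) (U w) = (U ^ (k + 1)) w := by
      intro k
      rw [pow_succ, ContinuousLinearMap.mul_apply]
    simp only [e1]
    rw [sum_range_sub' (fun k => (U ^ k) w)]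
    simp
  rw [e, norm_smul, Real.norm_eq_abs, abs_of_pos (by positivity : (0 : ℝ) < 1 / M)]
  have h1 : ‖w - (U ^ M) w‖ ≤ 2 * ‖w‖ := by
    refine (norm_sub_le _ _).trans ?_
    rw [norm_pow h]
    linarith
  calc 1 / (M : ℝ) * ‖w - (U ^ M) w‖ ≤ 1 / M * (2 * ‖w‖) := mul_le_mul_of_nonneg_left h1 (by positivity)
    _ = 2 / M * ‖w‖ := by ring

theorem av_steps (h : ∀ w, ‖U w‖ = ‖w‖) (M : ℕ) (hM : 1 ≤ M) (w : E) (k : ℕ) :
    ‖Av U M w - Av U M ((U ^ k) w)‖ ≤ 2 * k / M * ‖w‖ := by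
  induction k with
  | zero => simp
  | succ k ih =>
    have h1 := av_step h M hM ((U ^ k) w)
    rw [norm_pow h] at h1
    have e1 : (U ^ (k + 1)) w = U ((U ^ k) w) := by
      rw [pow_succ', ContinuousLinearMap.mul_apply]
    rw [e1]
    calc ‖Av U M w - Av U M (U ((U ^ k) w))‖
        = ‖(Av U M w - Av U M ((U ^ k) w)) + (Av U M ((U ^ k) w) - Av U M (U ((U ^ k) w)))‖ := by
          congr 1; abel
      _ ≤ _ := norm_add_le _ _
      _ ≤ 2 * k / M * ‖w‖ + 2 / M * ‖w‖ := add_le_add ih h1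
      _ = 2 * ((k + 1 : ℕ) : ℝ) / M * ‖w‖ := by push_cast; ring

/-- long means are smaller than short means -/
theorem av_le (h : ∀ w, ‖U w‖ = ‖w‖) (K M : ℕ) (hK : 1 ≤ K) (hM : 1 ≤ M) (w : E) :
    ‖Av U M w‖ ≤ ‖Av U K w‖ + 2 * K / M * ‖w‖ := by
  have hK0 : (0 : ℝ) < K := by exact_mod_cast hK
  have hM0 : (0 : ℝ) < M := by exact_mod_cast hM
  have e : Av U M w - Av U M (Av U K w) = (1 / (K : ℝ)) • ∑ k ∈ range K, (Av U M w - Av U M ((U ^ k) w)) := by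
    rw [sum_sub_distrib, sum_const, card_range, smul_sub, ← Nat.cast_smul_eq_nsmul ℝ, smul_smul,
      one_div_mul_cancel hK0.ne', one_smul]
    congr 1
    conv_lhs => rw [Av.eq_def U K w]
    rw [av_smul, av_sum]
  have h1 : ‖Av U M w - Av U M (Av U K w)‖ ≤ 2 * K / M * ‖w‖ := by
    rw [e, norm_smul, Real.norm_eq_abs, abs_of_pos (by positivity : (0 : ℝ) < 1 / K)]
    have h2 : ‖∑ k ∈ range K, (Av U M w - Av U M ((U ^ k) w))‖ ≤ ∑ _k ∈ range K, 2 * K / M * ‖w‖ := by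
      refine (norm_sum_le _ _).trans (sum_le_sum fun k hk => (av_steps h M hM w k).trans ?_)
      have hk' : (k : ℝ) ≤ K := by exact_mod_cast (mem_range.1 hk).le
      have : 2 * (k : ℝ) / M ≤ 2 * K / M := by gcongr
      exact mul_le_mul_of_nonneg_right this (norm_nonneg _)
    rw [sum_const, card_range, nsmul_eq_mul] at h2
    calc 1 / (K : ℝ) * ‖∑ k ∈ range K, (Av U M w - Av U M ((U ^ k) w))‖
        ≤ 1 / K * (K * (2 * K / M * ‖w‖)) := mul_le_mul_of_nonneg_left h2 (by positivity)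
      _ = 2 * K / M * ‖w‖ := by field_simp
  have h3 : ‖Av U M w‖ ≤ ‖Av U M (Av U K w)‖ + ‖Av U M w - Av U M (Av U K w)‖ := by
    have := norm_add_le (Av U M (Av U K w)) (Av U M w - Av U M (Av U K w))
    rwa [add_sub_cancel] at this
  have h4 := norm_av h M (Av U K w)
  linarith

section HS

variable (hs : HS U P v c)
include hs

theorem av_P (M : ℕ) (hM : 1 ≤ M) (w : E) : Av U M (P w) = P w := by
  have hM0 : (0 : ℝ) < M := by exact_mod_cast hM
  have h1 : ∀ k : ℕ, (U ^ k) (P w) = P w := by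
    intro k
    induction k with
    | zero => simp
    | succ k ih => rw [pow_succ', ContinuousLinearMap.mul_apply, ih, hs.fix]
  rw [Av]
  simp only [h1]
  rw [sum_const, card_range, ← Nat.cast_smul_eq_nsmul ℝ, smul_smul, one_div_mul_cancel hM0.ne', one_smul]

theorem P_pow (k : ℕ) (w : E) : P ((U ^ k) w) = P w := by
  induction k with
  | zero => simp
  | succ k ih => rw [pow_succ', ContinuousLinearMap.mul_apply, hs.inv, ih]

theorem P_av (M : ℕ) (hM : 1 ≤ M) (w : E) : P (Av U M w) = P w := by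
  have hM0 : (0 : ℝ) < M := by exact_mod_cast hM
  rw [Av, map_smul, map_sum]
  simp only [P_pow hs]
  rw [sum_const, card_range, ← Nat.cast_smul_eq_nsmul ℝ, smul_smul, one_div_mul_cancel hM0.ne', one_smul]

/-- Pythagoras -/
theorem pyth (M : ℕ) (hM : 1 ≤ M) (w : E) : ‖Av U M w - P w‖ ^ 2 = ‖Av U M w‖ ^ 2 - ‖P w‖ ^ 2 := by
  have h1 : (inner ℝ (Av U M w) (P w) : ℝ) = ‖P w‖ ^ 2 := by
    rw [hs.adj, P_av hs M hM, real_inner_self_eq_norm_sq]
  rw [norm_sub_sq_real, h1]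
  ring

theorem norm_P (w : E) : ‖P w‖ ≤ ‖w‖ := by
  have h1 := pyth hs 1 le_rfl w
  have h2 : Av U 1 w = w := by simp [Av]
  rw [h2] at h1
  have h3 : 0 ≤ ‖w - P w‖ ^ 2 := by positivity
  have h4 : ‖P w‖ ^ 2 ≤ ‖w‖ ^ 2 := by linarith
  exact abs_le_of_sq_le_sq' h4 (norm_nonneg _) |>.2

theorem norm_sub_P (w : E) : ‖w - P w‖ ≤ ‖w‖ := by
  have h1 := pyth hs 1 le_rfl w
  have h2 : Av U 1 w = w := by simp [Av]
  rw [h2] at h1
  have h3 : 0 ≤ ‖P w‖ ^ 2 := by positivity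
  have h4 : ‖w - P w‖ ^ 2 ≤ ‖w‖ ^ 2 := by linarith
  exact abs_le_of_sq_le_sq' h4 (norm_nonneg _) |>.2

theorem norm_av_sub (M : ℕ) (hM : 1 ≤ M) (w : E) : ‖Av U M w - P w‖ ≤ ‖w‖ := by
  rw [← av_P hs M hM w, ← av_sub]
  exact (norm_av hs.iso M _).trans (norm_sub_P hs w)

/-- comparison of two means -/
theorem av_cmp (K M : ℕ) (hK : 1 ≤ K) (hM : 1 ≤ M) (w : E) (hw : ‖w‖ ≤ 1) :
    ‖Av U M w - Av U K w‖ ≤ 2 * ‖Av U K w - P w‖ + 2 * K / M := by
  have hM0 : (0 : ℝ) < M := by exact_mod_cast hM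
  have h1 : ‖Av U M w - P w‖ ≤ ‖Av U K w - P w‖ + 2 * K / M := by
    have h2 := av_le hs.iso K M hK hM (w - P w)
    rw [av_sub, av_sub, av_P hs M hM, av_P hs K hK] at h2
    refine h2.trans ?_
    have h3 : 2 * (K : ℝ) / M * ‖w - P w‖ ≤ 2 * K / M * 1 :=
      mul_le_mul_of_nonneg_left ((norm_sub_P hs w).trans hw) (by positivity)
    linarith
  calc ‖Av U M w - Av U K w‖ = ‖(Av U M w - P w) - (Av U K w - P w)‖ := by congr 1; abel
    _ ≤ ‖Av U M w - P w‖ + ‖Av U K w - P w‖ := norm_sub_le _ _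
    _ ≤ _ := by linarith

theorem norm_v (a : ℤ) : ‖v a‖ ≤ 1 := hs.nrm a

/-- the four point function is symmetric: `U^k v_a` and `U^k' v_b` -/
theorem swap_inner (k k' a : ℕ) (m : ℤ) :
    (inner ℝ ((U ^ k) (v a)) ((U ^ k') (v ((a : ℤ) - m))) : ℝ) =
      inner ℝ (v ((k' : ℤ) - k)) ((U ^ a) (v ((k' : ℤ) - k - m))) := by
  rw [hs.inn, hs.sy2]
  have h1 : (inner ℝ (v ((k' : ℤ) - k)) ((U ^ a) (v ((k' : ℤ) - k - m))) : ℝ) =
      inner ℝ ((U ^ k) (v ((k' : ℤ) - k))) ((U ^ (k + a)) (v ((k' : ℤ) - k - m))) := by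
    rw [pow_add_apply, inner_pow hs.iso]
  rw [h1, hs.inn]
  congr 1 <;> push_cast <;> ring

theorem symm_v (a : ℕ) : (U ^ a) (v (-(a : ℤ))) = v a := by
  have h1 : ‖(U ^ a) (v (-(a : ℤ))) - v a‖ ^ 2 = 0 := by
    have e1 : ‖(U ^ a) (v (-(a : ℤ)))‖ ^ 2 = c a 0 a 0 := by
      rw [← real_inner_self_eq_norm_sq, hs.inn]
      simp
    have e2 : ‖v a‖ ^ 2 = c 0 a 0 a := by
      have := hs.inn 0 0 a a
      simp only [pow_zero, ContinuousLinearMap.one_apply, Nat.cast_zero, zero_add] at this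
      rw [← real_inner_self_eq_norm_sq, this]
    have e3 : (inner ℝ ((U ^ a) (v (-(a : ℤ)))) (v a) : ℝ) = c a 0 0 a := by
      have := hs.inn a 0 (-(a : ℤ)) a
      simp only [pow_zero, ContinuousLinearMap.one_apply, Nat.cast_zero, zero_add] at this
      rw [this]
      simp
    rw [norm_sub_sq_real, e1, e2, e3]
    have f1 : c a 0 a 0 = c 0 a 0 a := by
      rw [hs.sy2, hs.sy3, hs.sy2]
    have f2 : c a 0 0 a = c 0 a 0 a := hs.sy1 _ _ _ _
    rw [f1, f2]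
    ring
  have h2 : ‖(U ^ a) (v (-(a : ℤ))) - v a‖ = 0 := by
    simpa using h1
  exact sub_eq_zero.1 (norm_eq_zero.1 h2)

theorem symm_g (a : ℕ) : P (v (-(a : ℤ))) = P (v a) := by
  rw [← symm_v hs a, P_pow hs]

theorem symm_g' (a : ℤ) : ‖P (v (-a))‖ = ‖P (v a)‖ := by
  rcases Int.eq_nat_or_neg a with ⟨n, rfl | rfl⟩
  · rw [symm_g hs]
  · rw [neg_neg, symm_g hs]

end HS

end Pool.Agent.Helper46K9.OP
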