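import Pool.Agent.Helper46K9.OP.Hil

/-!
[L1] and [L2].
-/

set_option autoImplicit false

namespace Pool.Agent.Helper46K9.OP

open Finset MeasureTheory Filter Topology
open Pool.Agent.Helper94K9.OP

theorem l1 : S_L1 := by
  intro E _ _ _ U P v c hs K m hK
  have hK0 : (0 : ℝ) < K := by exact_mod_cast hK
  -- the inner product of two means
  have h1 : ∀ a : ℕ, (inner ℝ (Av U K (v a)) (Av U K (v ((a : ℤ) - m))) : ℝ) =
      (∑ k ∈ range K, ∑ k' ∈ range K,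
        inner ℝ (v ((k' : ℤ) - k)) ((U ^ a) (v ((k' : ℤ) - k - m)))) / (K : ℝ) ^ 2 := by
    intro a
    rw [Av, Av, inner_smul_left, inner_smul_right, sum_inner]
    simp only [inner_sum]
    rw [sum_congr rfl fun k _ => sum_congr rfl fun k' _ => swap_inner hs k k' a m]
    simp only [RCLike.conj_to_real]
    field_simp
  have h2 : ∀ L : ℕ, (∑ a ∈ range L, (inner ℝ (Av U K (v a)) (Av U K (v ((a : ℤ) - m))) : ℝ)) / L =
      (∑ k ∈ range K, ∑ k' ∈ range K,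
        inner ℝ (v ((k' : ℤ) - k)) (Av U L (v ((k' : ℤ) - k - m)))) / (K : ℝ) ^ 2 := by
    intro L
    rw [sum_congr rfl fun a _ => h1 a, ← sum_div]
    rw [sum_comm]
    rw [div_right_comm]
    congr 1
    rw [sum_div]
    refine sum_congr rfl fun k _ => ?_
    rw [sum_comm, sum_div]
    refine sum_congr rfl fun k' _ => ?_
    rw [Av, inner_smul_right, inner_sum]
    ring
  simp only [h2]
  rw [bK]
  refine Tendsto.div_const ?_ _
  refine tendsto_finsetSum _ fun k _ => tendsto_finsetSum _ fun k' _ => ?_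
  rw [← hs.adj]
  exact (tendsto_const_nhds).inner (hs.erg _)

/-- the numbers `bK K 0` -/
theorem bK_props {E : Type} [NormedAddCommGroup E] [InnerProductSpace ℝ E] [CompleteSpace E] {U P : E →L[ℝ] E}
    {v : ℤ → E} {c : ℤ → ℤ → ℤ → ℤ → ℝ} (hs : HS U P v c) :
    (∀ K : ℕ, 1 ≤ K → 0 ≤ bK P v K 0) ∧
    ∀ K K' : ℕ, 1 ≤ K → K ≤ K' → bK P v K' 0 ≤ bK P v K 0 + 8 * K / K' := by
  have hlim : ∀ K : ℕ, 1 ≤ K → Tendsto (fun L : ℕ => (∑ a ∈ range L, ‖Av U K (v (a : ℤ))‖ ^ 2) / L) atTop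
      (𝓝 (bK P v K 0)) := by
    intro K hK
    have := l1 E U P v c hs K 0 hK
    refine this.congr fun L => ?_
    congr 1
    refine sum_congr rfl fun a _ => ?_
    rw [sub_zero, real_inner_self_eq_norm_sq]
  refine ⟨fun K hK => ge_of_tendsto' (hlim K hK) fun L => by positivity, fun K K' hK hKK => ?_⟩
  have hK0 : (0 : ℝ) < K := by exact_mod_cast hK
  have hK' : 1 ≤ K' := hK.trans hKK
  have hK0' : (0 : ℝ) < K' := by exact_mod_cast hK'
  have hq : (K : ℝ) / K' ≤ 1 := by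
    rw [div_le_one hK0']
    exact_mod_cast hKK
  have hq0 : (0 : ℝ) ≤ (K : ℝ) / K' := by positivity
  refine le_of_tendsto_of_tendsto (hlim K' hK') ((hlim K hK).add_const (8 * (K : ℝ) / (K' : ℝ))) ?_
  filter_upwards [eventually_ge_atTop 1] with L hL
  have hL0 : (0 : ℝ) < L := by exact_mod_cast hL
  have h1 : ∑ a ∈ range L, ‖Av U K' (v (a : ℤ))‖ ^ 2 ≤
      ∑ a ∈ range L, (‖Av U K (v (a : ℤ))‖ ^ 2 + 8 * K / K') := by
    refine sum_le_sum fun a _ => ?_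
    have h2 := av_le hs.iso K K' hK hK' (v (a : ℤ))
    have h3 := hs.nrm (a : ℤ)
    have h4 := (norm_av hs.iso K (v (a : ℤ))).trans h3
    have h5 : 2 * (K : ℝ) / K' * ‖v (a : ℤ)‖ ≤ 2 * (K / K') := by
      calc 2 * (K : ℝ) / K' * ‖v (a : ℤ)‖ ≤ 2 * K / K' * 1 :=
            mul_le_mul_of_nonneg_left h3 (by positivity)
        _ = 2 * (K / K') := by ring
    have h6 : ‖Av U K' (v (a : ℤ))‖ ≤ ‖Av U K (v (a : ℤ))‖ + 2 * (K / K') := h2.trans (by linarith)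
    have h7 : ‖Av U K' (v (a : ℤ))‖ ^ 2 ≤ (‖Av U K (v (a : ℤ))‖ + 2 * (K / K')) ^ 2 :=
      pow_le_pow_left₀ (norm_nonneg _) h6 2
    have h8 : (8 : ℝ) * K / K' = 8 * (K / K') := by ring
    rw [h8]
    have h9 : 0 ≤ ‖Av U K (v (a : ℤ))‖ := norm_nonneg _
    nlinarith
  rw [sum_add_distrib, sum_const, card_range, nsmul_eq_mul] at h1
  calc (∑ a ∈ range L, ‖Av U K' (v (a : ℤ))‖ ^ 2) / L ≤
      (∑ a ∈ range L, ‖Av U K (v (a : ℤ))‖ ^ 2 + L * (8 * K / K')) / L :=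
        div_le_div_of_nonneg_right h1 hL0.le
    _ = _ := by rw [add_div, mul_div_cancel_left₀ _ hL0.ne']

/-- the limit is a lower bound -/
theorem lim_bK {E : Type} [NormedAddCommGroup E] [InnerProductSpace ℝ E] [CompleteSpace E] {U P : E →L[ℝ] E}
    {v : ℤ → E} {c : ℤ → ℤ → ℤ → ℤ → ℝ} (hs : HS U P v c) :
    ∃ β : ℝ, Tendsto (fun K : ℕ => bK P v K 0) atTop (𝓝 β) ∧ 0 ≤ β ∧ ∀ K : ℕ, 1 ≤ K → β ≤ bK P v K 0 := by
  obtain ⟨h0, h1⟩ := bK_props hs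
  set S : Set ℝ := {x | ∃ K : ℕ, 1 ≤ K ∧ x = bK P v K 0} with hS
  have hbd : BddBelow S := ⟨0, by rintro x ⟨K, hK, rfl⟩; exact h0 K hK⟩
  have hne : S.Nonempty := ⟨_, 1, le_rfl, rfl⟩
  have hle : ∀ K : ℕ, 1 ≤ K → sInf S ≤ bK P v K 0 := fun K hK => csInf_le hbd ⟨K, hK, rfl⟩
  refine ⟨sInf S, ?_, le_csInf hne (by rintro x ⟨K, hK, rfl⟩; exact h0 K hK), hle⟩
  rw [Metric.tendsto_atTop]
  intro ε hε
  obtain ⟨x, ⟨K, hK, rfl⟩, hx⟩ := exists_lt_of_csInf_lt hne (show sInf S < sInf S + ε / 2 by linarith)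
  have hK0 : (0 : ℝ) < K := by exact_mod_cast hK
  obtain ⟨N, hN⟩ := exists_nat_gt (16 * K / ε)
  refine ⟨max N K, fun K' hK' => ?_⟩
  have hKK : K ≤ K' := (le_max_right _ _).trans hK'
  have hNK : (N : ℝ) ≤ K' := by exact_mod_cast (le_max_left _ _).trans hK'
  have hK0' : (0 : ℝ) < K' := by
    have : 0 < K' := by omega
    exact_mod_cast this
  have h2 := h1 K K' hK hKK
  have h3 := hle K' (hK.trans hKK)
  have h4 : 8 * (K : ℝ) / K' < ε / 2 := by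
    have h5 : 16 * K / ε < K' := lt_of_lt_of_le hN hNK
    rw [div_lt_iff₀ hε] at h5
    rw [div_lt_iff₀ hK0']
    linarith
  rw [Real.dist_eq, abs_of_nonneg (by linarith)]
  linarith

theorem l2 : S_L2 := by
  intro E _ _ _ U P v c hs
  obtain ⟨β, h, _⟩ := lim_bK hs
  exact ⟨β, h⟩

end Pool.Agent.Helper46K9.OP
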