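import Pool.Agent.Helper94K9.OP.Stm

/-!
[WTD]: weighted means.
-/

set_option autoImplicit false

namespace Pool.Agent.Helper46K9.OP

open Finset MeasureTheory Filter Topology
open Pool.Agent.Helper94K9.OP

/-- summation by parts -/
theorem abel (c t : ℕ → ℝ) (n : ℕ) : ∑ a ∈ range n, c a * t a = c n * ∑ a ∈ range n, t a +
    ∑ j ∈ range n, (c j - c (j + 1)) * ∑ a ∈ range (j + 1), t a := by
  induction n with
  | zero => simp
  | succ n ih =>
    rw [sum_range_succ, ih, sum_range_succ (fun j => (c j - c (j + 1)) * ∑ a ∈ range (j + 1), t a),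
      sum_range_succ t n]
    ring

theorem sq_sum (x : ℝ) (n : ℕ) : ∑ a ∈ range n, (x - a) ^ 2 =
    n * x ^ 2 - x * n * (n - 1) + n * (n - 1) * (2 * n - 1) / 6 := by
  induction n with
  | zero => simp
  | succ n ih =>
    rw [sum_range_succ, ih]
    push_cast
    ring

theorem wtd : S_WTD := by
  intro t C τ _ hlim
  -- the primitive
  set D : ℕ → ℝ := fun j => ∑ a ∈ range j, (t a - τ) with hD
  have hDj : ∀ j, D j = ∑ a ∈ range j, t a - j * τ := by
    intro j
    simp only [hD]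
    rw [sum_sub_distrib, sum_const, card_range, nsmul_eq_mul]
  have h1 : ∀ ε : ℝ, 0 < ε → ∃ M : ℝ, 0 ≤ M ∧ ∀ j, |D j| ≤ ε * j + M := by
    intro ε hε
    obtain ⟨J, hJ⟩ := (Metric.tendsto_atTop.1 hlim) ε hε
    refine ⟨∑ i ∈ range (J + 1), |D i|, sum_nonneg fun _ _ => abs_nonneg _, fun j => ?_⟩
    by_cases hj : j < J + 1
    · have := single_le_sum (f := fun i => |D i|) (fun i _ => abs_nonneg (D i)) (mem_range.2 hj)
      have h2 : 0 ≤ ε * j := by positivity
      linarith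
    · have hj1 : J ≤ j := by omega
      have hj0 : (0 : ℝ) < j := by
        have : 0 < j := by omega
        exact_mod_cast this
      have h3 := hJ j hj1
      rw [Real.dist_eq] at h3
      have h4 : |D j| ≤ ε * j := by
        rw [hDj]
        have e : ∑ a ∈ range j, t a - j * τ = ((∑ a ∈ range j, t a) / j - τ) * j := by
          field_simp
        rw [e, abs_mul, abs_of_pos hj0]
        exact mul_le_mul_of_nonneg_right h3.le hj0.le
      have h5 : 0 ≤ ∑ i ∈ range (J + 1), |D i| := sum_nonneg fun _ _ => abs_nonneg _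
      linarith
  -- the error
  have h2 : Tendsto (fun L : ℕ => (∑ a ∈ range L, ((L : ℝ) - a) ^ 2 * (t a - τ)) / (L : ℝ) ^ 3) atTop (𝓝 0) := by
    rw [Metric.tendsto_atTop]
    intro ε hε
    obtain ⟨M, hM0, hM⟩ := h1 (ε / 4) (by positivity)
    obtain ⟨L₀, hL₀⟩ := exists_nat_gt (4 * M / ε + 1)
    refine ⟨L₀ + 1, fun L hL => ?_⟩
    have hLr : (L₀ : ℝ) + 1 ≤ L := by exact_mod_cast hL
    have hL0 : (0 : ℝ) < L := by linarith [show (0 : ℝ) ≤ L₀ from Nat.cast_nonneg _]
    rw [Real.dist_eq, sub_zero, abs_div, abs_of_pos (pow_pos hL0 3), div_lt_iff₀ (pow_pos hL0 3)]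
    have e := abel (fun a => ((L : ℝ) - a) ^ 2) (fun a => t a - τ) L
    rw [e]
    have e2 : ((L : ℝ) - L) ^ 2 = 0 := by simp
    rw [e2, zero_mul, zero_add]
    have h3 : |∑ j ∈ range L, (((L : ℝ) - j) ^ 2 - ((L : ℝ) - ((j + 1 : ℕ) : ℝ)) ^ 2) *
        ∑ a ∈ range (j + 1), (t a - τ)| ≤ ∑ j ∈ range L, (2 * L) * (ε / 4 * L + M) := by
      refine (abs_sum_le_sum_abs _ _).trans (sum_le_sum fun j hj => ?_)
      have hjL : (j : ℝ) + 1 ≤ L := by exact_mod_cast mem_range.1 hj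
      have hj0 : (0 : ℝ) ≤ j := Nat.cast_nonneg _
      rw [abs_mul]
      have h4 : |((L : ℝ) - j) ^ 2 - ((L : ℝ) - ((j + 1 : ℕ) : ℝ)) ^ 2| ≤ 2 * L := by
        push_cast
        rw [abs_le]
        constructor <;> nlinarith
      have h5 : |∑ a ∈ range (j + 1), (t a - τ)| ≤ ε / 4 * L + M := by
        have := hM (j + 1)
        simp only [hD] at this
        refine this.trans ?_
        push_cast
        have : ε / 4 * (j + 1) ≤ ε / 4 * L := mul_le_mul_of_nonneg_left hjL (by positivity)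
        linarith
      exact mul_le_mul h4 h5 (abs_nonneg _) (by positivity)
    refine lt_of_le_of_lt h3 ?_
    rw [sum_const, card_range, nsmul_eq_mul]
    have h6 : 4 * M < ε * L := by
      have : 4 * M / ε < L := by linarith
      rw [div_lt_iff₀ hε] at this
      linarith
    have h7 : (L : ℝ) * (2 * L * (ε / 4 * L + M)) = L ^ 2 * (ε / 2 * L + 2 * M) := by ring
    rw [h7]
    have h8 : ε / 2 * L + 2 * M < ε * L := by linarith
    calc (L : ℝ) ^ 2 * (ε / 2 * L + 2 * M) < L ^ 2 * (ε * L) :=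
          mul_lt_mul_of_pos_left h8 (pow_pos hL0 2)
      _ = ε * L ^ 3 := by ring
  have h3 : Tendsto (fun L : ℕ => τ * (1 / 3 + 1 / 2 * (1 / (L : ℝ)) + 1 / 6 * (1 / (L : ℝ)) ^ 2)) atTop
      (𝓝 (τ * (1 / 3 + 1 / 2 * 0 + 1 / 6 * 0 ^ 2))) := by
    have h4 : Tendsto (fun L : ℕ => 1 / (L : ℝ)) atTop (𝓝 0) := tendsto_one_div_atTop_nhds_zero_nat
    exact (((h4.const_mul (1 / 2)).const_add (1 / 3)).add ((h4.pow 2).const_mul (1 / 6))).const_mul τ
  have h5 := h2.add h3
  have e : (0 : ℝ) + τ * (1 / 3 + 1 / 2 * 0 + 1 / 6 * 0 ^ 2) = τ / 3 := by ring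
  rw [e] at h5
  refine h5.congr' ?_
  filter_upwards [eventually_ge_atTop 1] with L hL
  have hL0 : (L : ℝ) ≠ 0 := by
    have : L ≠ 0 := by omega
    exact_mod_cast this
  have h6 : ∑ a ∈ range L, ((L : ℝ) - a) ^ 2 * t a =
      ∑ a ∈ range L, ((L : ℝ) - a) ^ 2 * (t a - τ) + τ * ∑ a ∈ range L, ((L : ℝ) - a) ^ 2 := by
    rw [mul_sum, ← sum_add_distrib]
    exact sum_congr rfl fun a _ => by ring
  rw [h6, sq_sum]
  field_simp
  ring

end Pool.Agent.Helper46K9.OP
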