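import Pool.Agent.Helper46K9.OP.L1
import Pool.Agent.Helper46K9.OP.Wtd

/-!
[L3].
-/

set_option autoImplicit false

namespace Pool.Agent.Helper46K9.OP

open Finset MeasureTheory Filter Topology
open Pool.Agent.Helper94K9.OP

/-- sums over a square of an even function of the difference -/
theorem sq_diff (g : ℤ → ℝ) (hg : ∀ a, g (-a) = g a) (s : ℕ) :
    ∑ k ∈ range s, ∑ k' ∈ range s, g ((k' : ℤ) - k) =
      ∑ a ∈ range s, (2 * ((s : ℝ) - a) - 1) * g a - ∑ a ∈ range s, g 0 + ∑ a ∈ range s, g a := by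
  have hrow : ∀ n : ℕ, ∑ k ∈ range n, g ((n : ℤ) - k) = ∑ a ∈ range (n + 1), g a - g 0 := by
    intro n
    rw [sum_range_succ' (fun a : ℕ => g (a : ℤ)), ← sum_range_reflect]
    simp only [Nat.cast_zero, add_sub_cancel_right]
    refine sum_congr rfl fun k hk => ?_
    have hk' := mem_range.1 hk
    congr 1
    omega
  induction s with
  | zero => simp
  | succ s ih =>
    have e1 : ∑ k ∈ range (s + 1), ∑ k' ∈ range (s + 1), g ((k' : ℤ) - k) =
        ∑ k ∈ range s, ∑ k' ∈ range s, g ((k' : ℤ) - k) + ∑ k ∈ range s, g ((s : ℤ) - k) +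
          ∑ k' ∈ range s, g ((k' : ℤ) - s) + g 0 := by
      rw [sum_range_succ, sum_range_succ (fun k' : ℕ => g ((k' : ℤ) - s))]
      have : ∀ k : ℕ, ∑ k' ∈ range (s + 1), g ((k' : ℤ) - k) =
          ∑ k' ∈ range s, g ((k' : ℤ) - k) + g ((s : ℤ) - k) := fun k => sum_range_succ _ _
      rw [sum_congr rfl fun k _ => this k, sum_add_distrib]
      simp only [sub_self]
      ring
    have e2 : ∑ k' ∈ range s, g ((k' : ℤ) - s) = ∑ k ∈ range s, g ((s : ℤ) - k) :=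
      sum_congr rfl fun k _ => by rw [← hg, neg_sub]
    rw [e1, ih, e2, hrow]
    have e3 : ∑ a ∈ range (s + 1), (2 * (((s + 1 : ℕ) : ℝ) - a) - 1) * g a =
        ∑ a ∈ range s, (2 * ((s : ℝ) - a) - 1) * g a + 2 * ∑ a ∈ range s, g a + g s := by
      rw [sum_range_succ, mul_sum, ← sum_add_distrib]
      congr 1
      · refine sum_congr rfl fun a _ => ?_
        push_cast
        ring
      · push_cast
        ring
    rw [e3, sum_range_succ (fun _ : ℕ => g 0), sum_range_succ (fun a : ℕ => g (a : ℤ))]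
    ring

/-- lower bound for the weighted means of the projections -/
theorem proj_lower (g : ℤ → ℝ) (hg : ∀ a, g (-a) = g a) (h0 : ∀ a, 0 ≤ g a) (h1 : ∀ a, g a ≤ 1) (β : ℝ)
    (hβ0 : 0 ≤ β)
    (hβ : ∀ s : ℕ, 1 ≤ s → β * (s : ℝ) ^ 2 ≤ ∑ k ∈ range s, ∑ k' ∈ range s, g ((k' : ℤ) - k)) (L : ℕ) :
    β * (L : ℝ) ^ 3 / 3 - (L : ℝ) ^ 2 ≤ ∑ a ∈ range L, ((L : ℝ) - a) ^ 2 * g a := by
  induction L with
  | zero => simp
  | succ L ih =>
    have e1 : ∑ a ∈ range (L + 1), (((L + 1 : ℕ) : ℝ) - a) ^ 2 * g a =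
        ∑ a ∈ range L, ((L : ℝ) - a) ^ 2 * g a + ∑ a ∈ range (L + 1), (2 * (((L + 1 : ℕ) : ℝ) - a) - 1) * g a := by
      rw [sum_range_succ, sum_range_succ (fun a : ℕ => (2 * (((L + 1 : ℕ) : ℝ) - a) - 1) * g a), ← add_assoc,
        ← sum_add_distrib]
      congr 1
      · refine sum_congr rfl fun a _ => ?_
        push_cast
        ring
      · push_cast
        ring
    have e2 := sq_diff g hg (L + 1)
    have h2 := hβ (L + 1) (by omega)
    have h3 : ∑ a ∈ range (L + 1), g (a : ℤ) ≤ L + 1 := by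
      have : ∑ a ∈ range (L + 1), g (a : ℤ) ≤ ∑ _a ∈ range (L + 1), (1 : ℝ) := sum_le_sum fun a _ => h1 a
      simpa using this
    have h4 : 0 ≤ ∑ _a ∈ range (L + 1), g 0 := sum_nonneg fun _ _ => h0 0
    rw [e1]
    push_cast at h2 e2 ⊢
    have hL : (0 : ℝ) ≤ L := Nat.cast_nonneg _
    have h5 : β * ((L : ℝ) + 1) ^ 3 / 3 - β * (L : ℝ) ^ 3 / 3 ≤ β * ((L : ℝ) + 1) ^ 2 := by
      have : 0 ≤ β * ((L : ℝ) + 2 / 3) := by positivity
      nlinarith
    nlinarith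

theorem l3 : S_WTD → S_L1 → S_L2 → S_L3 := by
  intro hW hL1 _ E _ _ _ U P v c hs ε hε
  obtain ⟨β, hβ, hβ0, hβle⟩ := lim_bK hs
  obtain ⟨K₀, hK₀⟩ := (Metric.tendsto_atTop.1 hβ) (ε / 2) (by positivity)
  refine ⟨max K₀ 1, fun K hK => ?_⟩
  have hK1 : 1 ≤ K := (le_max_right _ _).trans hK
  have hKβ : bK P v K 0 ≤ β + ε / 2 := by
    have := hK₀ K ((le_max_left _ _).trans hK)
    rw [Real.dist_eq] at this
    have := (abs_lt.1 this).2
    linarith
  -- the first term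
  have h1 := hW (fun a => ‖Av U K (v (a : ℤ))‖ ^ 2) 1 (bK P v K 0)
    (fun a => by
      rw [abs_of_nonneg (by positivity)]
      have := (norm_av hs.iso K (v (a : ℤ))).trans (hs.nrm _)
      exact pow_le_one₀ (norm_nonneg _) this)
    (by
      have := hL1 E U P v c hs K 0 hK1
      refine this.congr fun L => ?_
      congr 1
      refine sum_congr rfl fun a _ => ?_
      rw [sub_zero, real_inner_self_eq_norm_sq])
  obtain ⟨L₁, hL₁⟩ := (Metric.tendsto_atTop.1 h1) (ε / 4) (by positivity)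
  obtain ⟨L₂, hL₂⟩ := exists_nat_gt (4 / ε)
  refine ⟨max L₁ (max L₂ 1), fun L hL => ?_⟩
  have hLa : L₁ ≤ L := (le_max_left _ _).trans hL
  have hLb : L₂ ≤ L := (le_max_left _ _).trans ((le_max_right _ _).trans hL)
  have hLc : 1 ≤ L := (le_max_right _ _).trans ((le_max_right _ _).trans hL)
  have hL0 : (0 : ℝ) < L := by exact_mod_cast hLc
  have h2 := (abs_lt.1 (by simpa [Real.dist_eq] using hL₁ L hLa)).2
  -- the second term
  have h3 := proj_lower (fun a => ‖P (v a)‖ ^ 2) (fun a => by simp only [symm_g' hs])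
    (fun a => by positivity) (fun a => pow_le_one₀ (norm_nonneg _) ((norm_P hs _).trans (hs.nrm a))) β hβ0
    (fun s hs1 => by
      have h4 := hβle s hs1
      have hs0 : (0 : ℝ) < s := by exact_mod_cast hs1
      rw [bK, le_div_iff₀ (by positivity)] at h4
      refine h4.trans (le_of_eq ?_)
      refine sum_congr rfl fun k _ => sum_congr rfl fun k' _ => ?_
      rw [sub_zero, real_inner_self_eq_norm_sq]) L
  have e : ∑ a ∈ range L, ((L : ℝ) - a) ^ 2 * ‖Av U K (v a) - P (v a)‖ ^ 2 =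
      ∑ a ∈ range L, ((L : ℝ) - a) ^ 2 * ‖Av U K (v a)‖ ^ 2 - ∑ a ∈ range L, ((L : ℝ) - a) ^ 2 * ‖P (v a)‖ ^ 2 := by
    rw [← sum_sub_distrib]
    refine sum_congr rfl fun a _ => ?_
    rw [pyth hs K hK1]
    ring
  rw [e, sub_div]
  have h5 : β / 3 - ε / 4 ≤ (∑ a ∈ range L, ((L : ℝ) - a) ^ 2 * ‖P (v a)‖ ^ 2) / (L : ℝ) ^ 3 := by
    rw [le_div_iff₀ (by positivity)]
    refine le_trans ?_ h3
    have h6 : 4 / ε < L := lt_of_lt_of_le hL₂ (by exact_mod_cast hLb)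
    rw [div_lt_iff₀ hε] at h6
    have h7 : (L : ℝ) ^ 2 * 4 ≤ L ^ 2 * (L * ε) := mul_le_mul_of_nonneg_left h6.le (by positivity)
    nlinarith
  linarith

end Pool.Agent.Helper46K9.OP
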