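import Pool.Agent.Helper46K9.OP.L4A
import Pool.Agent.Helper46K9.OP.L3

/-!
[L4].
-/

set_option autoImplicit false

namespace Pool.Agent.Helper46K9.OP

open Finset MeasureTheory Filter Topology
open Pool.Agent.Helper94K9.OP

section

variable {E : Type} [NormedAddCommGroup E] [InnerProductSpace ℝ E] {U P : E →L[ℝ] E} {v : ℤ → E}
  {c : ℤ → ℤ → ℤ → ℤ → ℝ}

/-- the inner product of the two means -/
noncomputable def IK (U : E →L[ℝ] E) (v : ℤ → E) (m : ℤ) (K a : ℕ) : ℝ :=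
  inner ℝ (Av U K (v (a : ℤ))) (Av U K (v ((a : ℤ) - m)))

/-- the square of the distance to the limit -/
noncomputable def DK (U P : E →L[ℝ] E) (v : ℤ → E) (K : ℕ) (a : ℤ) : ℝ := ‖Av U K (v a) - P (v a)‖ ^ 2

theorem DK_nonneg (K : ℕ) (a : ℤ) : 0 ≤ DK U P v K a := by
  unfold DK
  positivity

theorem two_le (t η : ℝ) (hη : 0 < η) : 2 * t ≤ η + t ^ 2 / η := by
  have h : 0 ≤ (t - η) ^ 2 / η := by positivity
  have e : (t - η) ^ 2 / η = t ^ 2 / η - 2 * t + η := by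
    field_simp
    ring
  linarith

variable (hs : HS U P v c)
include hs

theorem DK_le (K : ℕ) (hK : 1 ≤ K) (a : ℤ) : DK U P v K a ≤ 1 :=
  pow_le_one₀ (norm_nonneg _) ((norm_av_sub hs K hK _).trans (hs.nrm a))

/-- replacing the long means by the short ones -/
theorem IK_cmp (m : ℤ) (K M a : ℕ) (hK : 1 ≤ K) (hM : 1 ≤ M) (η : ℝ) (hη : 0 < η) :
    |IK U v m M a - IK U v m K a| ≤
      2 * η + DK U P v K a / η + DK U P v K ((a : ℤ) - m) / η + 4 * K / M := by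
  have hM0 : (0 : ℝ) < M := by exact_mod_cast hM
  have n1 : ‖Av U M (v (a : ℤ))‖ ≤ 1 := (norm_av hs.iso M _).trans (hs.nrm _)
  have n2 : ‖Av U K (v ((a : ℤ) - m))‖ ≤ 1 := (norm_av hs.iso K _).trans (hs.nrm _)
  have h1 := av_cmp hs K M hK hM (v (a : ℤ)) (hs.nrm _)
  have h2 := av_cmp hs K M hK hM (v ((a : ℤ) - m)) (hs.nrm _)
  have e : IK U v m M a - IK U v m K a =
      inner ℝ (Av U M (v (a : ℤ))) (Av U M (v ((a : ℤ) - m)) - Av U K (v ((a : ℤ) - m))) +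
      inner ℝ (Av U M (v (a : ℤ)) - Av U K (v (a : ℤ))) (Av U K (v ((a : ℤ) - m))) := by
    unfold IK
    rw [inner_sub_right, inner_sub_left]
    ring
  rw [e]
  have h3 : |(inner ℝ (Av U M (v (a : ℤ))) (Av U M (v ((a : ℤ) - m)) - Av U K (v ((a : ℤ) - m))) : ℝ)| ≤
      ‖Av U M (v ((a : ℤ) - m)) - Av U K (v ((a : ℤ) - m))‖ := by
    refine (abs_real_inner_le_norm _ _).trans ?_
    exact mul_le_of_le_one_left (norm_nonneg _) n1
  have h4 : |(inner ℝ (Av U M (v (a : ℤ)) - Av U K (v (a : ℤ))) (Av U K (v ((a : ℤ) - m))) : ℝ)| ≤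
      ‖Av U M (v (a : ℤ)) - Av U K (v (a : ℤ))‖ := by
    refine (abs_real_inner_le_norm _ _).trans ?_
    exact mul_le_of_le_one_right (norm_nonneg _) n2
  have h5 := two_le ‖Av U K (v (a : ℤ)) - P (v (a : ℤ))‖ η hη
  have h6 := two_le ‖Av U K (v ((a : ℤ) - m)) - P (v ((a : ℤ) - m))‖ η hη
  have h7 : (4 : ℝ) * K / M = 2 * K / M + 2 * K / M := by ring
  unfold DK
  rw [h7]
  refine (abs_add_le _ _).trans ?_
  linarith

/-- shifted weighted sums -/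
theorem shift_sum (m : ℤ) (K L : ℕ) (hK : 1 ≤ K) :
    ∑ a ∈ range L, ((L : ℝ) - a) ^ 2 * DK U P v K ((a : ℤ) - m) ≤
      ∑ a ∈ range (L + m.natAbs), (((L + m.natAbs : ℕ) : ℝ) - a) ^ 2 * DK U P v K (a : ℤ) +
        m.natAbs * (L : ℝ) ^ 2 := by
  classical
  set R := m.natAbs with hR
  -- split into a ≥ m and a < m
  have h1 : ∑ a ∈ range L, ((L : ℝ) - a) ^ 2 * DK U P v K ((a : ℤ) - m) =
      ∑ a ∈ (range L).filter (fun a : ℕ => m ≤ (a : ℤ)), ((L : ℝ) - a) ^ 2 * DK U P v K ((a : ℤ) - m) +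
      ∑ a ∈ (range L).filter (fun a : ℕ => ¬ m ≤ (a : ℤ)), ((L : ℝ) - a) ^ 2 * DK U P v K ((a : ℤ) - m) :=
    (sum_filter_add_sum_filter_not _ _ _).symm
  have h2 : ∑ a ∈ (range L).filter (fun a : ℕ => ¬ m ≤ (a : ℤ)), ((L : ℝ) - a) ^ 2 * DK U P v K ((a : ℤ) - m) ≤
      R * (L : ℝ) ^ 2 := by
    have h3 : ∀ a ∈ (range L).filter (fun a : ℕ => ¬ m ≤ (a : ℤ)),
        ((L : ℝ) - a) ^ 2 * DK U P v K ((a : ℤ) - m) ≤ (L : ℝ) ^ 2 := by
      intro a ha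
      have haL : (a : ℝ) ≤ L := by exact_mod_cast (mem_range.1 (mem_filter.1 ha).1).le
      have ha0 : (0 : ℝ) ≤ a := Nat.cast_nonneg _
      have h4 := DK_le hs K hK ((a : ℤ) - m)
      have h5 : 0 ≤ DK U P v K ((a : ℤ) - m) := DK_nonneg K _
      have h6 : ((L : ℝ) - a) ^ 2 ≤ (L : ℝ) ^ 2 := pow_le_pow_left₀ (by linarith) (by linarith) 2
      calc ((L : ℝ) - a) ^ 2 * DK U P v K ((a : ℤ) - m) ≤ (L : ℝ) ^ 2 * 1 :=
            mul_le_mul h6 h4 h5 (by positivity)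
        _ = _ := by ring
    have h7 := sum_le_sum h3
    rw [sum_const, nsmul_eq_mul] at h7
    have h8 : ((range L).filter (fun a : ℕ => ¬ m ≤ (a : ℤ))).card ≤ R := by
      have : (range L).filter (fun a : ℕ => ¬ m ≤ (a : ℤ)) ⊆ range R := by
        intro a ha
        simp only [mem_filter, mem_range] at ha ⊢
        omega
      simpa using card_le_card this
    have h9 : (((range L).filter (fun a : ℕ => ¬ m ≤ (a : ℤ))).card : ℝ) ≤ R := by exact_mod_cast h8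
    exact h7.trans (mul_le_mul_of_nonneg_right h9 (by positivity))
  have h3 : ∑ a ∈ (range L).filter (fun a : ℕ => m ≤ (a : ℤ)), ((L : ℝ) - a) ^ 2 * DK U P v K ((a : ℤ) - m) ≤
      ∑ a ∈ range (L + R), (((L + R : ℕ) : ℝ) - a) ^ 2 * DK U P v K (a : ℤ) := by
    have h4 : ∑ a ∈ (range L).filter (fun a : ℕ => m ≤ (a : ℤ)), ((L : ℝ) - a) ^ 2 * DK U P v K ((a : ℤ) - m) ≤
        ∑ a ∈ (range L).filter (fun a : ℕ => m ≤ (a : ℤ)),
          (((L + R : ℕ) : ℝ) - (((a : ℤ) - m).toNat : ℕ)) ^ 2 * DK U P v K (((((a : ℤ) - m).toNat : ℕ) : ℤ)) := by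
      refine sum_le_sum fun a ha => ?_
      have haL := mem_range.1 (mem_filter.1 ha).1
      have ham := (mem_filter.1 ha).2
      have e1 : ((((a : ℤ) - m).toNat : ℕ) : ℤ) = (a : ℤ) - m := by omega
      rw [e1]
      refine mul_le_mul_of_nonneg_right ?_ (DK_nonneg K _)
      have h5 : (0 : ℝ) ≤ (L : ℝ) - a := by
        have : (a : ℝ) ≤ L := by exact_mod_cast haL.le
        linarith
      refine pow_le_pow_left₀ h5 ?_ 2
      have h6 : (L : ℤ) - a ≤ ((L + R : ℕ) : ℤ) - (((a : ℤ) - m).toNat : ℕ) := by omega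
      have h7 : (((L : ℤ) - a : ℤ) : ℝ) ≤ ((((L + R : ℕ) : ℤ) - (((a : ℤ) - m).toNat : ℕ) : ℤ) : ℝ) := by
        exact_mod_cast h6
      push_cast at h7 ⊢
      linarith
    refine h4.trans ?_
    rw [← sum_image (f := fun b : ℕ => (((L + R : ℕ) : ℝ) - (b : ℕ)) ^ 2 * DK U P v K (b : ℤ))
      (g := fun a : ℕ => ((a : ℤ) - m).toNat)]
    · refine sum_le_sum_of_subset_of_nonneg ?_ fun b _ _ => mul_nonneg (sq_nonneg _) (DK_nonneg K _)
      intro b hb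
      obtain ⟨a, ha, rfl⟩ := mem_image.1 hb
      have haL := mem_range.1 (mem_filter.1 ha).1
      have ham := (mem_filter.1 ha).2
      rw [mem_range]
      omega
    · intro a ha a' ha' hEq
      have ham := (mem_filter.1 (mem_coe.1 ha)).2
      have ham' := (mem_filter.1 (mem_coe.1 ha')).2
      simp only at hEq
      omega
  rw [h1]
  linarith

end

theorem l4 : S_WTD → S_L1 → S_L3 → S_L4 := by
  intro hW hL1 hL3 E _ _ _ U P v c hs m
  -- the main claim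
  have claim : ∀ ε : ℝ, 0 < ε → ∃ β : ℝ, ∃ L₀ : ℕ, ∀ L ≥ L₀, |Gc c m L - β| ≤ ε := by
    intro ε hε
    set η : ℝ := ε / 60 with hη
    have hη0 : 0 < η := by positivity
    obtain ⟨K₀, hK₀⟩ := hL3 E U P v c hs (η ^ 2) (by positivity)
    set K := max K₀ 1 with hK
    have hK1 : 1 ≤ K := le_max_right _ _
    obtain ⟨L₁, hL₁⟩ := hK₀ K (le_max_left _ _)
    have hD : ∀ L : ℕ, L₁ ≤ L → 1 ≤ L →
        ∑ a ∈ range L, ((L : ℝ) - a) ^ 2 * DK U P v K (a : ℤ) ≤ η ^ 2 * (L : ℝ) ^ 3 := by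
      intro L hL hL1'
      have hL0 : (0 : ℝ) < L := by exact_mod_cast hL1'
      have := hL₁ L hL
      rw [div_le_iff₀ (by positivity)] at this
      exact this
    -- the limit of the short means
    have hI := hW (fun a => IK U v m K a) 1 (bK P v K m)
      (fun a => by
        have n1 : ‖Av U K (v (a : ℤ))‖ ≤ 1 := (norm_av hs.iso K _).trans (hs.nrm _)
        have n2 : ‖Av U K (v ((a : ℤ) - m))‖ ≤ 1 := (norm_av hs.iso K _).trans (hs.nrm _)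
        refine (abs_real_inner_le_norm _ _).trans ?_
        exact mul_le_one₀ n1 (norm_nonneg _) n2)
      (hL1 E U P v c hs K m hK1)
    obtain ⟨L₂, hL₂⟩ := (Metric.tendsto_atTop.1 hI) η hη0
    set R := m.natAbs with hR
    set C : ℝ := (16 * |m| + 5 : ℝ) + 2 * (4 * K + R / η) with hC
    have hC0 : 0 ≤ C := by positivity
    obtain ⟨L₃, hL₃⟩ := exists_nat_gt (C / η)
    refine ⟨2 * (bK P v K m / 3), max (max L₁ L₂) (max (max L₃ 1) R), fun L hL => ?_⟩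
    have hLa : L₁ ≤ L := (le_max_left _ _).trans ((le_max_left _ _).trans hL)
    have hLb : L₂ ≤ L := (le_max_right _ _).trans ((le_max_left _ _).trans hL)
    have hLc : L₃ ≤ L := (le_max_left _ _).trans ((le_max_left _ _).trans ((le_max_right _ _).trans hL))
    have hLd : 1 ≤ L := (le_max_right _ _).trans ((le_max_left _ _).trans ((le_max_right _ _).trans hL))
    have hLe : R ≤ L := (le_max_right _ _).trans ((le_max_right _ _).trans hL)
    have hL0 : (0 : ℝ) < L := by exact_mod_cast hLd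
    -- the combinatorial part
    have h1 := comb c (fun i j k l hi hk => by
        obtain ⟨i', rfl⟩ := Int.eq_ofNat_of_zero_le hi
        obtain ⟨k', rfl⟩ := Int.eq_ofNat_of_zero_le hk
        have h := hs.inn i' k' (j - i') (l - k')
        rw [show (i' : ℤ) + (j - i') = j by ring, show (k' : ℤ) + (l - k') = l by ring] at h
        rw [← h]
        refine (abs_real_inner_le_norm _ _).trans ?_
        rw [norm_pow hs.iso, norm_pow hs.iso]
        exact mul_le_one₀ (hs.nrm _) (norm_nonneg _) (hs.nrm _))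
      (fun i j k l => by rw [hs.sy1, hs.sy3, hs.sy1, hs.sy3]) m L
    rw [comb2 hs m L] at h1
    have e1 : Gc c m L = (∑ h₁ ∈ Icc (1 : ℤ) (L : ℤ), ∑ h₂ ∈ Icc (1 : ℤ) (L : ℤ), ∑ h₃ ∈ Icc (1 : ℤ) (L : ℤ),
        ∑ h₄ ∈ Icc (1 : ℤ) (L : ℤ), if h₁ + h₂ - h₃ - h₄ = m then c h₁ h₂ h₃ h₄ else 0) / (L : ℝ) ^ 3 := by
      rw [Gc]
      congr 1
      rw [← castsum L (fun h₁ => ∑ h₂ ∈ Icc (1 : ℤ) (L : ℤ), ∑ h₃ ∈ Icc (1 : ℤ) (L : ℤ),
        ∑ h₄ ∈ Icc (1 : ℤ) (L : ℤ), if h₁ + h₂ - h₃ - h₄ = m then c h₁ h₂ h₃ h₄ else 0)]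
      refine sum_congr rfl fun h₁ _ => ?_
      rw [← castsum L (fun h₂ => ∑ h₃ ∈ Icc (1 : ℤ) (L : ℤ),
        ∑ h₄ ∈ Icc (1 : ℤ) (L : ℤ), if (h₁ : ℤ) + h₂ - h₃ - h₄ = m then c h₁ h₂ h₃ h₄ else 0)]
      refine sum_congr rfl fun h₂ _ => ?_
      rw [← castsum L (fun h₃ => ∑ h₄ ∈ Icc (1 : ℤ) (L : ℤ),
        if (h₁ : ℤ) + h₂ - h₃ - h₄ = m then c h₁ h₂ h₃ h₄ else 0)]
      refine sum_congr rfl fun h₃ _ => ?_
      rw [← castsum L (fun h₄ => if (h₁ : ℤ) + h₂ - h₃ - h₄ = m then c h₁ h₂ h₃ h₄ else 0)]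
    -- the analytic part
    have h2 : |∑ a ∈ range L, ((L : ℝ) - a) ^ 2 * IK U v m (L - a) a -
        ∑ a ∈ range L, ((L : ℝ) - a) ^ 2 * IK U v m K a| ≤
        2 * η * (L : ℝ) ^ 3 + η * (L : ℝ) ^ 3 + (η * (8 * (L : ℝ) ^ 3) + R * (L : ℝ) ^ 2 / η) +
          4 * K * (L : ℝ) ^ 2 := by
      rw [← sum_sub_distrib]
      refine (abs_sum_le_sum_abs _ _).trans ?_
      have h3 : ∀ a ∈ range L, |((L : ℝ) - a) ^ 2 * IK U v m (L - a) a - ((L : ℝ) - a) ^ 2 * IK U v m K a| ≤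
          2 * η * (L : ℝ) ^ 2 + ((L : ℝ) - a) ^ 2 * DK U P v K a / η +
            ((L : ℝ) - a) ^ 2 * DK U P v K ((a : ℤ) - m) / η + 4 * K * L := by
        intro a ha
        have haL := mem_range.1 ha
        have hM : ((L - a : ℕ) : ℝ) = (L : ℝ) - a := by rw [Nat.cast_sub haL.le]
        have hM0 : (0 : ℝ) < (L : ℝ) - a := by
          rw [← hM]
          have : 0 < L - a := by omega
          exact_mod_cast this
        have hMle : (L : ℝ) - a ≤ L := by linarith [show (0 : ℝ) ≤ a from Nat.cast_nonneg _]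
        have h4 := IK_cmp hs m K (L - a) a hK1 (by omega) η hη0
        rw [← mul_sub, abs_mul, abs_of_nonneg (sq_nonneg _)]
        refine (mul_le_mul_of_nonneg_left h4 (sq_nonneg _)).trans ?_
        rw [hM]
        have h5 : ((L : ℝ) - a) ^ 2 * (2 * η + DK U P v K a / η + DK U P v K ((a : ℤ) - m) / η +
            4 * K / ((L : ℝ) - a)) = 2 * η * ((L : ℝ) - a) ^ 2 + ((L : ℝ) - a) ^ 2 * DK U P v K a / η +
            ((L : ℝ) - a) ^ 2 * DK U P v K ((a : ℤ) - m) / η + 4 * K * ((L : ℝ) - a) := by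
          field_simp
        rw [h5]
        have h6 : 2 * η * ((L : ℝ) - a) ^ 2 ≤ 2 * η * (L : ℝ) ^ 2 :=
          mul_le_mul_of_nonneg_left (pow_le_pow_left₀ hM0.le hMle 2) (by positivity)
        have h7 : 4 * (K : ℝ) * ((L : ℝ) - a) ≤ 4 * K * L := mul_le_mul_of_nonneg_left hMle (by positivity)
        linarith
      refine (sum_le_sum h3).trans ?_
      rw [sum_add_distrib, sum_add_distrib, sum_add_distrib, sum_const, sum_const, card_range, nsmul_eq_mul,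
        nsmul_eq_mul, ← sum_div, ← sum_div]
      have h4 := hD L hLa hLd
      have h5 := shift_sum hs m K L hK1
      have h6 := hD (L + R) (by omega) (by omega)
      have h7 : (((L + R : ℕ) : ℝ)) ^ 3 ≤ 8 * (L : ℝ) ^ 3 := by
        have h8 : ((L + R : ℕ) : ℝ) ≤ 2 * L := by
          have : L + R ≤ 2 * L := by omega
          exact_mod_cast this
        calc (((L + R : ℕ) : ℝ)) ^ 3 ≤ (2 * (L : ℝ)) ^ 3 := pow_le_pow_left₀ (Nat.cast_nonneg _) h8 3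
          _ = _ := by ring
      have h8 : (∑ a ∈ range L, ((L : ℝ) - a) ^ 2 * DK U P v K (a : ℤ)) / η ≤ η * (L : ℝ) ^ 3 := by
        rw [div_le_iff₀ hη0]
        refine h4.trans (le_of_eq (by ring))
      have h9 : (∑ a ∈ range L, ((L : ℝ) - a) ^ 2 * DK U P v K ((a : ℤ) - m)) / η ≤
          η * (8 * (L : ℝ) ^ 3) + R * (L : ℝ) ^ 2 / η := by
        have h10 : ∑ a ∈ range L, ((L : ℝ) - a) ^ 2 * DK U P v K ((a : ℤ) - m) ≤
            η ^ 2 * (8 * (L : ℝ) ^ 3) + R * (L : ℝ) ^ 2 :=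
          h5.trans (add_le_add (h6.trans (mul_le_mul_of_nonneg_left h7 (by positivity))) le_rfl)
        calc (∑ a ∈ range L, ((L : ℝ) - a) ^ 2 * DK U P v K ((a : ℤ) - m)) / η ≤
            (η ^ 2 * (8 * (L : ℝ) ^ 3) + R * (L : ℝ) ^ 2) / η := div_le_div_of_nonneg_right h10 hη0.le
          _ = _ := by field_simp
      have e5 : (L : ℝ) * (2 * η * (L : ℝ) ^ 2) = 2 * η * (L : ℝ) ^ 3 := by ring
      have e6 : (L : ℝ) * (4 * K * L) = 4 * K * (L : ℝ) ^ 2 := by ring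
      rw [e5, e6]
      linarith
    have h3 : |∑ a ∈ range L, ((L : ℝ) - a) ^ 2 * IK U v m K a - bK P v K m / 3 * (L : ℝ) ^ 3| ≤
        η * (L : ℝ) ^ 3 := by
      have h4 := hL₂ L hLb
      rw [Real.dist_eq] at h4
      have e : ∑ a ∈ range L, ((L : ℝ) - a) ^ 2 * IK U v m K a - bK P v K m / 3 * (L : ℝ) ^ 3 =
          ((∑ a ∈ range L, ((L : ℝ) - a) ^ 2 * IK U v m K a) / (L : ℝ) ^ 3 - bK P v K m / 3) * (L : ℝ) ^ 3 := by
        field_simp
      rw [e, abs_mul, abs_of_pos (by positivity : (0 : ℝ) < (L : ℝ) ^ 3)]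
      exact mul_le_mul_of_nonneg_right h4.le (by positivity)
    have h4 : C * (L : ℝ) ^ 2 ≤ η * (L : ℝ) ^ 3 := by
      have h5 : C / η < L := lt_of_lt_of_le hL₃ (by exact_mod_cast hLc)
      rw [div_lt_iff₀ hη0] at h5
      calc C * (L : ℝ) ^ 2 ≤ (L * η) * (L : ℝ) ^ 2 := mul_le_mul_of_nonneg_right h5.le (by positivity)
        _ = _ := by ring
    rw [e1]
    have e2 : ∀ x : ℝ, |x / (L : ℝ) ^ 3 - 2 * (bK P v K m / 3)| =
        |x - 2 * (bK P v K m / 3 * (L : ℝ) ^ 3)| / (L : ℝ) ^ 3 := by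
      intro x
      rw [← abs_of_pos (by positivity : (0 : ℝ) < (L : ℝ) ^ 3), ← abs_div,
        abs_of_pos (by positivity : (0 : ℝ) < (L : ℝ) ^ 3)]
      congr 1
      field_simp
    rw [e2, div_le_iff₀ (by positivity)]
    have h1' : |(∑ h₁ ∈ Icc (1 : ℤ) (L : ℤ), ∑ h₂ ∈ Icc (1 : ℤ) (L : ℤ), ∑ h₃ ∈ Icc (1 : ℤ) (L : ℤ),
        ∑ h₄ ∈ Icc (1 : ℤ) (L : ℤ), if h₁ + h₂ - h₃ - h₄ = m then c h₁ h₂ h₃ h₄ else 0) -
        2 * ∑ a ∈ range L, ((L : ℝ) - a) ^ 2 * IK U v m (L - a) a| ≤ (16 * |m| + 5 : ℝ) * (L : ℝ) ^ 2 := h1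
    generalize (∑ h₁ ∈ Icc (1 : ℤ) (L : ℤ), ∑ h₂ ∈ Icc (1 : ℤ) (L : ℤ), ∑ h₃ ∈ Icc (1 : ℤ) (L : ℤ),
        ∑ h₄ ∈ Icc (1 : ℤ) (L : ℤ), if h₁ + h₂ - h₃ - h₄ = m then c h₁ h₂ h₃ h₄ else 0) = S4 at h1' ⊢
    generalize (∑ a ∈ range L, ((L : ℝ) - a) ^ 2 * IK U v m (L - a) a) = SM at h1' h2
    generalize (∑ a ∈ range L, ((L : ℝ) - a) ^ 2 * IK U v m K a) = SK at h2 h3
    have hCL : (16 * |m| + 5 : ℝ) * (L : ℝ) ^ 2 + 2 * (R * (L : ℝ) ^ 2 / η + 4 * K * (L : ℝ) ^ 2) =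
        C * (L : ℝ) ^ 2 := by
      rw [hC]
      ring
    have hεη : ε = 60 * η := by rw [hη]; ring
    have hL3 : (0 : ℝ) < (L : ℝ) ^ 3 := by positivity
    have hηL : 0 < η * (L : ℝ) ^ 3 := by positivity
    rw [abs_le] at h1' h2 h3 ⊢
    rw [hεη]
    constructor <;> nlinarith [h1'.1, h1'.2, h2.1, h2.2, h3.1, h3.2]
  -- Cauchy
  have hcau : CauchySeq (Gc c m) := by
    rw [Metric.cauchySeq_iff']
    intro ε hε
    obtain ⟨β, L₀, hL₀⟩ := claim (ε / 3) (by positivity)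
    refine ⟨L₀, fun L hL => ?_⟩
    have h1 := abs_le.1 (hL₀ L hL)
    have h2 := abs_le.1 (hL₀ L₀ le_rfl)
    rw [Real.dist_eq, abs_lt]
    constructor <;> linarith [h1.1, h1.2, h2.1, h2.2]
  exact cauchySeq_tendsto_of_complete hcau

end Pool.Agent.Helper46K9.OP
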