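import Pool.Agent.Helper46K9.OP.Hil

/-!
[L4], combinatorial part.
-/

set_option autoImplicit false

namespace Pool.Agent.Helper46K9.OP

open Finset MeasureTheory Filter Topology
open Pool.Agent.Helper94K9.OP

theorem castsum (L : ℕ) (F : ℤ → ℝ) : ∑ h ∈ Icc 1 L, F (h : ℤ) = ∑ h ∈ Icc (1 : ℤ) (L : ℤ), F h := by
  refine sum_nbij' (fun h => (h : ℤ)) Int.toNat ?_ ?_ ?_ ?_ ?_
  · intro a ha
    simp only [mem_Icc] at ha ⊢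
    omega
  · intro a ha
    simp only [mem_Icc] at ha ⊢
    omega
  · intro a _
    simp
  · intro a ha
    simp only [mem_Icc] at ha ⊢
    omega
  · intro a _
    rfl

/-- few points near a given point -/
theorem near_card (L : ℕ) (x r : ℤ) (hr : 0 ≤ r) :
    ∑ h ∈ Icc (1 : ℤ) (L : ℤ), (if |h - x| ≤ r then (1 : ℝ) else 0) ≤ 2 * r + 1 := by
  rw [← sum_filter, sum_const, nsmul_eq_mul, mul_one]
  have h1 : (Icc (1 : ℤ) (L : ℤ)).filter (fun h => |h - x| ≤ r) ⊆ Icc (x - r) (x + r) := by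
    intro h hh
    simp only [mem_filter, mem_Icc, abs_le] at hh ⊢
    omega
  have h2 := card_le_card h1
  rw [Int.card_Icc] at h2
  have h3 : ((x + r + 1 - (x - r)).toNat : ℤ) = 2 * r + 1 := by omega
  have h4 : (((Icc (1 : ℤ) (L : ℤ)).filter (fun h => |h - x| ≤ r)).card : ℤ) ≤ 2 * r + 1 := by
    rw [← h3]
    exact_mod_cast h2
  exact_mod_cast h4

theorem triple_bound (L : ℕ) (G : ℤ → ℤ → ℤ → ℝ) (B : ℝ)
    (h : ∀ h₁ ∈ Icc (1 : ℤ) (L : ℤ), ∀ h₂ ∈ Icc (1 : ℤ) (L : ℤ), |∑ h₃ ∈ Icc (1 : ℤ) (L : ℤ), G h₁ h₂ h₃| ≤ B) :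
    |∑ h₁ ∈ Icc (1 : ℤ) (L : ℤ), ∑ h₂ ∈ Icc (1 : ℤ) (L : ℤ), ∑ h₃ ∈ Icc (1 : ℤ) (L : ℤ), G h₁ h₂ h₃| ≤
      B * (L : ℝ) ^ 2 := by
  have hc : ((Icc (1 : ℤ) (L : ℤ)).card : ℝ) = L := by simp
  calc |∑ h₁ ∈ Icc (1 : ℤ) (L : ℤ), ∑ h₂ ∈ Icc (1 : ℤ) (L : ℤ), ∑ h₃ ∈ Icc (1 : ℤ) (L : ℤ), G h₁ h₂ h₃|
      ≤ ∑ h₁ ∈ Icc (1 : ℤ) (L : ℤ), |∑ h₂ ∈ Icc (1 : ℤ) (L : ℤ), ∑ h₃ ∈ Icc (1 : ℤ) (L : ℤ), G h₁ h₂ h₃| :=
        abs_sum_le_sum_abs _ _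
    _ ≤ ∑ h₁ ∈ Icc (1 : ℤ) (L : ℤ), ∑ h₂ ∈ Icc (1 : ℤ) (L : ℤ), B :=
        sum_le_sum fun h₁ hh₁ => (abs_sum_le_sum_abs _ _).trans (sum_le_sum fun h₂ hh₂ => h h₁ hh₁ h₂ hh₂)
    _ = B * (L : ℝ) ^ 2 := by
        simp only [sum_const, nsmul_eq_mul, hc]
        ring

theorem comb (c : ℤ → ℤ → ℤ → ℤ → ℝ) (hc : ∀ i j k l, 0 ≤ i → 0 ≤ k → |c i j k l| ≤ 1)
    (hsym : ∀ i j k l, c i j k l = c j i l k) (m : ℤ) (L : ℕ) :
    |(∑ h₁ ∈ Icc (1 : ℤ) (L : ℤ), ∑ h₂ ∈ Icc (1 : ℤ) (L : ℤ), ∑ h₃ ∈ Icc (1 : ℤ) (L : ℤ),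
      ∑ h₄ ∈ Icc (1 : ℤ) (L : ℤ), if h₁ + h₂ - h₃ - h₄ = m then c h₁ h₂ h₃ h₄ else 0) -
      2 * ∑ h₁ ∈ Icc (1 : ℤ) (L : ℤ), ∑ h₂ ∈ Icc (1 : ℤ) (L : ℤ), ∑ h₃ ∈ Icc (1 : ℤ) (L : ℤ),
        (if h₃ ≤ h₁ ∧ h₂ + h₁ - h₃ ≤ L then c h₁ h₂ h₃ (h₁ + h₂ - h₃ - m) else 0)| ≤
      (16 * |m| + 5 : ℝ) * (L : ℝ) ^ 2 := by
  classical
  set I := Icc (1 : ℤ) (L : ℤ) with hI
  set μ : ℤ := |m| with hμ
  have hμ0 : 0 ≤ μ := abs_nonneg m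
  have hm1 : m ≤ μ := le_abs_self m
  have hm2 : -μ ≤ m := neg_abs_le m
  have elim : ∀ (Pr : ℤ → Prop) [DecidablePred Pr] (h₁ h₂ h₃ : ℤ),
      ∑ h₄ ∈ I, (if h₁ + h₂ - h₃ - h₄ = m ∧ Pr h₄ then c h₁ h₂ h₃ h₄ else 0) =
      if h₁ + h₂ - h₃ - m ∈ I ∧ Pr (h₁ + h₂ - h₃ - m) then c h₁ h₂ h₃ (h₁ + h₂ - h₃ - m) else 0 := by
    intro Pr _ h₁ h₂ h₃
    have e1 : ∀ h₄ ∈ I, (if h₁ + h₂ - h₃ - h₄ = m ∧ Pr h₄ then c h₁ h₂ h₃ h₄ else 0) =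
        if h₁ + h₂ - h₃ - m = h₄ then
          (if Pr (h₁ + h₂ - h₃ - m) then c h₁ h₂ h₃ (h₁ + h₂ - h₃ - m) else 0) else 0 := by
      intro h₄ _
      by_cases h : h₁ + h₂ - h₃ - m = h₄
      · have h' : h₁ + h₂ - h₃ - h₄ = m := by omega
        rw [if_pos h, h]
        by_cases hp : Pr h₄
        · rw [if_pos ⟨h', hp⟩, if_pos hp]
        · rw [if_neg (fun hh => hp hh.2), if_neg hp]
      · have h' : ¬ (h₁ + h₂ - h₃ - h₄ = m) := by omega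
        rw [if_neg h, if_neg (fun hh => h' hh.1)]
    rw [sum_congr rfl e1, sum_ite_eq, ite_and]
  -- the three parts
  set f : ℤ → ℤ → ℤ → ℤ → ℝ := fun h₁ h₂ h₃ h₄ =>
    if h₁ + h₂ - h₃ - h₄ = m ∧ μ < h₁ - h₃ then c h₁ h₂ h₃ h₄ else 0 with hf
  set S₁ : ℝ := ∑ h₁ ∈ I, ∑ h₂ ∈ I, ∑ h₃ ∈ I, ∑ h₄ ∈ I, f h₁ h₂ h₃ h₄ with hS₁
  have hswap : ∑ h₁ ∈ I, ∑ h₂ ∈ I, ∑ h₃ ∈ I, ∑ h₄ ∈ I, f h₂ h₁ h₄ h₃ = S₁ := by
    rw [sum_comm]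
    refine sum_congr rfl fun h₁ _ => sum_congr rfl fun h₂ _ => ?_
    rw [sum_comm]
  -- first estimate
  have hA : |(∑ h₁ ∈ I, ∑ h₂ ∈ I, ∑ h₃ ∈ I, ∑ h₄ ∈ I, if h₁ + h₂ - h₃ - h₄ = m then c h₁ h₂ h₃ h₄ else 0) -
      S₁ - S₁| ≤ (4 * μ + 1 : ℝ) * (L : ℝ) ^ 2 := by
    nth_rewrite 2 [← hswap]
    rw [hS₁]
    simp only [← sum_sub_distrib]
    refine triple_bound L (fun h₁ h₂ h₃ => ∑ h₄ ∈ I, ((if h₁ + h₂ - h₃ - h₄ = m then c h₁ h₂ h₃ h₄ else 0) -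
      f h₁ h₂ h₃ h₄ - f h₂ h₁ h₄ h₃)) _ ?_
    intro h₁ hh₁ h₂ hh₂
    have h1 := near_card L h₁ (2 * μ) (by omega)
    refine (abs_sum_le_sum_abs _ _).trans (le_trans ?_ (h1.trans (by push_cast; linarith)))
    refine sum_le_sum fun h₃ hh₃ => ?_
    rw [mem_Icc] at hh₁ hh₂ hh₃
    have e1 : ∀ h₄ ∈ I, ((if h₁ + h₂ - h₃ - h₄ = m then c h₁ h₂ h₃ h₄ else 0) -
        f h₁ h₂ h₃ h₄ - f h₂ h₁ h₄ h₃) =
        if h₁ + h₂ - h₃ - h₄ = m ∧ (h₁ - h₃ ≤ μ ∧ m - (h₁ - h₃) ≤ μ) then c h₁ h₂ h₃ h₄ else 0 := by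
      intro h₄ _
      simp only [hf]
      rw [← hsym h₁ h₂ h₃ h₄]
      by_cases h : h₁ + h₂ - h₃ - h₄ = m
      · have h' : h₂ + h₁ - h₄ - h₃ = m := by omega
        by_cases ha : μ < h₁ - h₃
        · have hb : ¬ (μ < h₂ - h₄) := by omega
          simp only [h, h', ha, hb, if_true, true_and, and_false, if_false]
          rw [if_neg (by omega)]
          ring
        · by_cases hb : μ < h₂ - h₄
          · simp only [h, h', ha, hb, if_true, true_and, if_false]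
            rw [if_neg (by omega)]
            ring
          · simp only [h, h', ha, hb, if_true, true_and, if_false]
            rw [if_pos (by omega)]
            ring
      · have h' : ¬ (h₂ + h₁ - h₄ - h₃ = m) := by omega
        simp only [h, h', if_false, false_and]
        ring
    rw [sum_congr rfl e1, elim (fun _ => h₁ - h₃ ≤ μ ∧ m - (h₁ - h₃) ≤ μ)]
    by_cases hcnd : h₁ + h₂ - h₃ - m ∈ I ∧ (h₁ - h₃ ≤ μ ∧ m - (h₁ - h₃) ≤ μ)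
    · rw [if_pos hcnd, if_pos (by rw [abs_le]; omega)]
      exact hc _ _ _ _ (by omega) (by omega)
    · rw [if_neg hcnd, abs_zero]
      split_ifs <;> norm_num
  -- second estimate
  have hB : |S₁ - ∑ h₁ ∈ I, ∑ h₂ ∈ I, ∑ h₃ ∈ I,
      (if h₃ ≤ h₁ ∧ h₂ + h₁ - h₃ ≤ L then c h₁ h₂ h₃ (h₁ + h₂ - h₃ - m) else 0)| ≤
      (6 * μ + 2 : ℝ) * (L : ℝ) ^ 2 := by
    rw [hS₁]
    simp only [← sum_sub_distrib]
    refine triple_bound L (fun h₁ h₂ h₃ => ∑ h₄ ∈ I, f h₁ h₂ h₃ h₄ -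
      (if h₃ ≤ h₁ ∧ h₂ + h₁ - h₃ ≤ L then c h₁ h₂ h₃ (h₁ + h₂ - h₃ - m) else 0)) _ ?_
    intro h₁ hh₁ h₂ hh₂
    have h1 := near_card L h₁ (2 * μ) (by omega)
    have h2 := near_card L (h₁ + h₂ - L) μ hμ0
    refine (abs_sum_le_sum_abs _ _).trans (le_trans ?_ ((add_le_add h1 h2).trans (by push_cast; linarith)))
    rw [← sum_add_distrib]
    refine sum_le_sum fun h₃ hh₃ => ?_
    rw [mem_Icc] at hh₁ hh₂ hh₃
    have e1 : ∑ h₄ ∈ I, f h₁ h₂ h₃ h₄ =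
        if h₁ + h₂ - h₃ - m ∈ I ∧ μ < h₁ - h₃ then c h₁ h₂ h₃ (h₁ + h₂ - h₃ - m) else 0 :=
      elim (fun _ => μ < h₁ - h₃) h₁ h₂ h₃
    rw [e1]
    have hc1 : |c h₁ h₂ h₃ (h₁ + h₂ - h₃ - m)| ≤ 1 := hc _ _ _ _ (by omega) (by omega)
    have hp1 : (0 : ℝ) ≤ if |h₃ - h₁| ≤ 2 * μ then (1 : ℝ) else 0 := by split_ifs <;> norm_num
    have hp2 : (0 : ℝ) ≤ if |h₃ - (h₁ + h₂ - L)| ≤ μ then (1 : ℝ) else 0 := by split_ifs <;> norm_num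
    by_cases ha : h₁ + h₂ - h₃ - m ∈ I ∧ μ < h₁ - h₃
    · by_cases hb : h₃ ≤ h₁ ∧ h₂ + h₁ - h₃ ≤ L
      · rw [if_pos ha, if_pos hb, sub_self, abs_zero]
        linarith
      · rw [if_pos ha, if_neg hb, sub_zero]
        rw [hI, mem_Icc] at ha
        have : |h₃ - (h₁ + h₂ - L)| ≤ μ := by
          rw [abs_le]
          omega
        rw [if_pos this]
        linarith
    · by_cases hb : h₃ ≤ h₁ ∧ h₂ + h₁ - h₃ ≤ L
      · rw [if_neg ha, if_pos hb, zero_sub, abs_neg]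
        rw [hI, mem_Icc] at ha
        by_cases hd : |h₃ - h₁| ≤ 2 * μ
        · rw [if_pos hd]
          linarith
        · have h5 : |h₃ - (h₁ + h₂ - L)| ≤ μ := by
            rw [abs_le] at hd ⊢
            omega
          rw [if_pos h5]
          linarith
      · rw [if_neg ha, if_neg hb, sub_self, abs_zero]
        linarith
  rw [abs_le] at hA hB ⊢
  have hμm : ((|m| : ℤ) : ℝ) = |(m : ℝ)| := by push_cast; rfl
  have hμr : (μ : ℝ) = |(m : ℝ)| := hμm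
  constructor <;> nlinarith [hA.1, hA.2, hB.1, hB.2]

/-- the main part in terms of the means -/
theorem comb2 {E : Type} [NormedAddCommGroup E] [InnerProductSpace ℝ E] {U P : E →L[ℝ] E} {v : ℤ → E}
    {c : ℤ → ℤ → ℤ → ℤ → ℝ} (hs : HS U P v c) (m : ℤ) (L : ℕ) :
    ∑ h₁ ∈ Icc (1 : ℤ) (L : ℤ), ∑ h₂ ∈ Icc (1 : ℤ) (L : ℤ), ∑ h₃ ∈ Icc (1 : ℤ) (L : ℤ),
        (if h₃ ≤ h₁ ∧ h₂ + h₁ - h₃ ≤ L then c h₁ h₂ h₃ (h₁ + h₂ - h₃ - m) else 0) =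
      ∑ a ∈ range L, ((L : ℝ) - a) ^ 2 *
        (inner ℝ (Av U (L - a) (v (a : ℤ))) (Av U (L - a) (v ((a : ℤ) - m))) : ℝ) := by
  classical
  set I := Icc (1 : ℤ) (L : ℤ) with hI
  have e1 : ∀ a ∈ range L, ((L : ℝ) - a) ^ 2 *
      (inner ℝ (Av U (L - a) (v (a : ℤ))) (Av U (L - a) (v ((a : ℤ) - m))) : ℝ) =
      ∑ h ∈ range L, ∑ h' ∈ range L, if h + a < L ∧ h' + a < L then
        (inner ℝ ((U ^ h) (v (a : ℤ))) ((U ^ h') (v ((a : ℤ) - m))) : ℝ) else 0 := by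
    intro a ha
    have haL := mem_range.1 ha
    have hM : ((L - a : ℕ) : ℝ) = (L : ℝ) - a := by
      rw [Nat.cast_sub haL.le]
    have hM0 : (0 : ℝ) < (L : ℝ) - a := by
      rw [← hM]
      have : 0 < L - a := by omega
      exact_mod_cast this
    rw [Av, Av, inner_smul_left, inner_smul_right, sum_inner, hM]
    simp only [inner_sum, RCLike.conj_to_real]
    have e2 : ((L : ℝ) - a) ^ 2 * (1 / ((L : ℝ) - a) * (1 / ((L : ℝ) - a) *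
        ∑ i ∈ range (L - a), ∑ i_1 ∈ range (L - a),
          (inner ℝ ((U ^ i) (v (a : ℤ))) ((U ^ i_1) (v ((a : ℤ) - m))) : ℝ))) =
        ∑ i ∈ range (L - a), ∑ i_1 ∈ range (L - a),
          (inner ℝ ((U ^ i) (v (a : ℤ))) ((U ^ i_1) (v ((a : ℤ) - m))) : ℝ) := by
      field_simp
    rw [e2]
    have hr : range (L - a) = (range L).filter (fun h => h + a < L) := by
      ext h
      simp only [mem_range, mem_filter]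
      omega
    rw [hr, sum_filter]
    refine sum_congr rfl fun h _ => ?_
    by_cases hh : h + a < L
    · rw [if_pos hh, sum_filter]
      refine sum_congr rfl fun h' _ => ?_
      simp only [hh, true_and]
    · simp only [hh, false_and, if_false, sum_const_zero]
  rw [sum_congr rfl e1]
  -- products
  have e3 : ∑ h₁ ∈ I, ∑ h₂ ∈ I, ∑ h₃ ∈ I,
      (if h₃ ≤ h₁ ∧ h₂ + h₁ - h₃ ≤ L then c h₁ h₂ h₃ (h₁ + h₂ - h₃ - m) else 0) =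
      ∑ x ∈ (I ×ˢ I ×ˢ I).filter (fun x : ℤ × ℤ × ℤ => x.2.2 ≤ x.1 ∧ x.2.1 + x.1 - x.2.2 ≤ L),
        c x.1 x.2.1 x.2.2 (x.1 + x.2.1 - x.2.2 - m) := by
    rw [sum_filter, sum_product]
    refine sum_congr rfl fun h₁ _ => ?_
    rw [sum_product]
  have e4 : ∑ a ∈ range L, ∑ h ∈ range L, ∑ h' ∈ range L, (if h + a < L ∧ h' + a < L then
        (inner ℝ ((U ^ h) (v (a : ℤ))) ((U ^ h') (v ((a : ℤ) - m))) : ℝ) else 0) =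
      ∑ x ∈ (range L ×ˢ range L ×ˢ range L).filter (fun x : ℕ × ℕ × ℕ => x.2.1 + x.1 < L ∧ x.2.2 + x.1 < L),
        (inner ℝ ((U ^ x.2.1) (v (x.1 : ℤ))) ((U ^ x.2.2) (v ((x.1 : ℤ) - m))) : ℝ) := by
    rw [sum_filter, sum_product]
    refine sum_congr rfl fun h₁ _ => ?_
    rw [sum_product]
  rw [e3, e4]
  refine sum_nbij' (fun x => ((x.1 - x.2.2).toNat, (x.2.2 - 1).toNat, (x.2.1 - 1).toNat))
    (fun y => ((y.1 : ℤ) + y.2.1 + 1, (y.2.2 : ℤ) + 1, (y.2.1 : ℤ) + 1)) ?_ ?_ ?_ ?_ ?_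
  · rintro ⟨x, y, z⟩ hx
    simp only [mem_filter, mem_product, mem_Icc, mem_range, hI] at hx ⊢
    omega
  · rintro ⟨x, y, z⟩ hx
    simp only [mem_filter, mem_product, mem_Icc, mem_range, hI] at hx ⊢
    omega
  · rintro ⟨x, y, z⟩ hx
    simp only [mem_filter, mem_product, mem_Icc, hI] at hx
    simp only [Prod.mk.injEq]
    omega
  · rintro ⟨x, y, z⟩ hx
    simp only [mem_filter, mem_product, mem_range] at hx
    simp only [Prod.mk.injEq]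
    omega
  · rintro ⟨x, y, z⟩ hx
    simp only [mem_filter, mem_product, mem_Icc, hI] at hx
    simp only
    have h1 := inner_pow hs.iso 1 ((U ^ (z - 1).toNat) (v ((x - z).toNat : ℤ)))
      ((U ^ (y - 1).toNat) (v (((x - z).toNat : ℤ) - m)))
    rw [← pow_add_apply, ← pow_add_apply] at h1
    rw [← h1, hs.inn]
    have a1 : (((1 + (z - 1).toNat : ℕ) : ℤ)) = z := by push_cast; omega
    have a2 : (((1 + (y - 1).toNat : ℕ) : ℤ)) = y := by push_cast; omega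
    have a3 : ((x - z).toNat : ℤ) = x - z := by omega
    rw [a1, a2, a3, show z + (x - z) = x by ring, show y + (x - z - m) = x + y - z - m by ring,
      hs.sy1 z x y, hs.sy2 x z y]

end Pool.Agent.Helper46K9.OP
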